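import Pool.Agent.W41.Sieve
import Pool.Agent.R526.SP.Cnt
import Pool.Agent.R526.RS.Pnt

set_option autoImplicit false

/-! # The number of destinations of a long move -/

namespace Pool.Agent.R526.LS

open Finset Filter Topology
open Pool.Agent.R526.SP (Ph mem_Ph)
open Pool.Agent.H510R2.Maier (QQ QQ_pos QQ_real)
open Pool.Agent.R526.RS (Dl)

theorem dvd_add_iff (q a i : ℕ) (hq : 0 < q) : q ∣ a + i ↔ i % q = (q - a % q) % q := by
  rw [Nat.dvd_iff_mod_eq_zero, Nat.add_mod]
  have h1 := Nat.mod_lt a hq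
  have h2 := Nat.mod_lt i hq
  generalize a % q = r at *
  generalize i % q = s at *
  rcases Nat.eq_zero_or_pos r with h | h
  · subst h
    rw [zero_add, Nat.mod_eq_of_lt h2, Nat.sub_zero, Nat.mod_self]
  · rw [Nat.mod_eq_of_lt (show q - r < q by omega)]
    rcases lt_or_ge (r + s) q with h3 | h3
    · rw [Nat.mod_eq_of_lt h3]
      omega
    · rw [Nat.mod_eq_sub_mod h3, Nat.mod_eq_of_lt (show r + s - q < q by omega)]
      omega

open Classical in
/-- the fundamental lemma for all intervals -/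
theorem rough (ε : ℝ) (hε : 0 < ε) : ∃ K y0 : ℕ, 1 ≤ K ∧ ∀ y : ℕ, y0 ≤ y → ∀ a X : ℕ, y ^ K ≤ X →
    |(((Ioc a (a + X)).filter (fun m : ℕ => ∀ q : ℕ, q.Prime → q ∣ m → y < q)).card : ℝ) - X * QQ y| ≤
      ε * (X * QQ y) := by
  obtain ⟨K, y0, hK, hy0, hF⟩ := Pool.Agent.W41.fund hε
  refine ⟨K, y0, hK, ?_⟩
  intro y hy a X hX
  have h1 := hF y hy X hX ((Icc 1 y).filter Nat.Prime) (fun p hp => by
    rw [mem_filter, mem_Icc] at hp
    exact ⟨hp.2, hp.1.2⟩) (fun q => (q - a % q) % q) (fun p hp => by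
    rw [mem_filter, mem_Icc] at hp
    exact Nat.mod_lt _ (by omega))
  have h2 : Pool.Agent.W41.V ((Icc 1 y).filter Nat.Prime) = QQ y := rfl
  rw [h2] at h1
  have h3 : ((Ioc a (a + X)).filter (fun m : ℕ => ∀ q : ℕ, q.Prime → q ∣ m → y < q)).card =
      ((Icc 1 X).filter (fun n : ℕ => ∀ p ∈ (Icc 1 y).filter Nat.Prime, n % p ≠ (p - a % p) % p)).card := by
    symm
    apply card_bij (fun i _ => a + i)
    · intro i hi
      simp only [mem_filter, mem_Icc] at hi
      simp only [mem_filter, mem_Ioc]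
      refine ⟨by omega, fun q hq hd => ?_⟩
      by_contra hc
      have h4 := hi.2 q ⟨⟨hq.one_lt.le, by omega⟩, hq⟩
      exact h4 ((dvd_add_iff q a i hq.pos).1 hd)
    · intro i _ j _ hij
      exact Nat.add_left_cancel hij
    · intro m hm
      simp only [mem_filter, mem_Ioc] at hm
      refine ⟨m - a, ?_, by omega⟩
      simp only [mem_filter, mem_Icc]
      refine ⟨by omega, fun q hq hd => ?_⟩
      have h4 : a + (m - a) = m := by omega
      have h5 := (dvd_add_iff q a (m - a) (by omega)).2 hd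
      rw [h4] at h5
      have := hm.2 q hq.2 h5
      omega
  rw [h3]
  convert h1

theorem QQ_Z (Z : ℕ → ℕ) (β : ℝ) (hβ : 0 < β)
    (hZ : Tendsto (fun p : ℕ => Real.log (Z p) / Real.log (Real.log p)) atTop (𝓝 β)) :
    Tendsto Z atTop atTop ∧ Tendsto (fun p : ℕ => (QQ (Z p))⁻¹ / Real.log (Real.log p)) atTop
      (𝓝 (Real.exp Real.eulerMascheroniConstant * β)) := by
  have hll : Tendsto (fun p : ℕ => Real.log (Real.log (p : ℝ))) atTop atTop :=
    Real.tendsto_log_atTop.comp (Real.tendsto_log_atTop.comp tendsto_natCast_atTop_atTop)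
  have h1 : Tendsto (fun p : ℕ => Real.log (Z p)) atTop atTop := by
    have h2 := hZ.pos_mul_atTop hβ hll
    refine h2.congr' ?_
    filter_upwards [hll.eventually_gt_atTop 0] with p hp
    field_simp
  have h2 : Tendsto (fun p : ℕ => (Z p : ℝ)) atTop atTop := by
    refine tendsto_atTop_mono (fun p => ?_) h1
    exact (Real.log_le_self (Nat.cast_nonneg _))
  refine ⟨tendsto_natCast_atTop_iff.1 h2, ?_⟩
  have h3 := (QQ_real.comp h2).mul hZ
  refine h3.congr' ?_
  filter_upwards [h1.eventually_gt_atTop 0] with p hp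
  simp only [Function.comp, Nat.floor_natCast]
  field_simp

/-- the number of destinations -/
theorem dest (A : ℕ) (Z W : ℕ → ℕ) (hW : Tendsto (fun p : ℕ => (W p : ℝ) / Dl A p) atTop (𝓝 1)) (β : ℝ) (hβ : 0 < β)
    (hZ : Tendsto (fun p : ℕ => Real.log (Z p) / Real.log (Real.log p)) atTop (𝓝 β)) (ε : ℝ) (hε : 0 < ε) :
    ∀ᶠ p : ℕ in atTop, |((Ph Z W p).card : ℝ) - W p * QQ (Z p)| ≤ ε * (W p * QQ (Z p)) := by
  obtain ⟨K, y0, hK, hR⟩ := rough ε hε
  have hlog : Tendsto (fun p : ℕ => Real.log (p : ℝ)) atTop atTop :=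
    Real.tendsto_log_atTop.comp tendsto_natCast_atTop_atTop
  have hll := Real.tendsto_log_atTop.comp hlog
  obtain ⟨hZ1, -⟩ := QQ_Z Z β hβ hZ
  have hK0 : (0 : ℝ) < K := by exact_mod_cast hK
  have e1 : ∀ᶠ L : ℝ in atTop, K * ((β + 1) * Real.log L) ≤ L / 4 := by
    have h1 := Real.isLittleO_log_id_atTop.def (show (0 : ℝ) < 1 / (4 * (K * (β + 1))) by positivity)
    filter_upwards [h1, eventually_ge_atTop (1 : ℝ)] with L h2 h3
    rw [Real.norm_of_nonneg (Real.log_nonneg h3), id, Real.norm_of_nonneg (by linarith)] at h2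
    have h4 : 0 < K * (β + 1) := by positivity
    calc K * ((β + 1) * Real.log L) = K * (β + 1) * Real.log L := by ring
      _ ≤ K * (β + 1) * (1 / (4 * (K * (β + 1))) * L) := mul_le_mul_of_nonneg_left h2 h4.le
      _ = L / 4 := by field_simp
  filter_upwards [hZ1.eventually_ge_atTop y0, hZ1.eventually_ge_atTop 1,
    hZ.eventually_le_const (show β < β + 1 by linarith), hlog.eventually e1,
    Pool.Agent.R526.RS.basic A 1 (1 / 2) (by norm_num), hll.eventually_gt_atTop 0,
    hW.eventually_const_le (show (1 / 2 : ℝ) < 1 by norm_num), hlog.eventually_ge_atTop 4]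
    with p a1 a1' a2 a3 a4 a5 a6 a7
  simp only [Function.comp] at a5
  obtain ⟨b1, b2, b3, b4⟩ := a4
  have hΔ : 0 < Dl A p := by
    have : 0 < (Real.log (p : ℝ)) ^ 2 := by positivity
    linarith
  have h1 : (Z p) ^ K ≤ W p := by
    have h2 : Real.log ((Z p : ℝ) ^ K) ≤ Real.log (p : ℝ) / 4 := by
      rw [Real.log_pow]
      rw [div_le_iff₀ a5] at a2
      exact (mul_le_mul_of_nonneg_left a2 hK0.le).trans a3
    have h3 : Real.log (p : ℝ) / 4 ≤ Real.log (W p : ℝ) := by
      rw [le_div_iff₀ hΔ] at a6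
      have h4 : Real.log (1 / 2 * Dl A p) ≤ Real.log (W p : ℝ) := Real.log_le_log (by positivity) a6
      rw [Real.log_mul (by norm_num) hΔ.ne'] at h4
      have h5 : -1 ≤ Real.log (1 / 2 : ℝ) := by
        rw [one_div, Real.log_inv]
        have := Real.log_two_lt_d9
        linarith
      linarith
    have hz : (0 : ℝ) < Z p := by exact_mod_cast a1'
    have hw : (0 : ℝ) < W p := by
      rw [le_div_iff₀ hΔ] at a6
      exact lt_of_lt_of_le (by positivity) a6
    have h4 := (Real.log_le_log_iff (by positivity) hw).1 (h2.trans h3)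
    exact_mod_cast h4
  have h2 := hR (Z p) a1 p (W p) h1
  unfold Ph
  convert h2

/-- lower bound for the number of destinations -/
theorem dest_low (A : ℕ) (Z W : ℕ → ℕ) (hW : Tendsto (fun p : ℕ => (W p : ℝ) / Dl A p) atTop (𝓝 1)) (β : ℝ)
    (hβ : 0 < β)
    (hZ : Tendsto (fun p : ℕ => Real.log (Z p) / Real.log (Real.log p)) atTop (𝓝 β)) (ε : ℝ) (hε : 0 < ε) :
    ∀ᶠ p : ℕ in atTop, (W p : ℝ) ≤
      (1 + ε) * (Real.exp Real.eulerMascheroniConstant * β * Real.log (Real.log p)) * (Ph Z W p).card := by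
  set E := Real.exp Real.eulerMascheroniConstant with hE
  have hE0 : 0 < E := Real.exp_pos _
  set e : ℝ := min (1 / 2) (ε / 4) with he
  have he0 : 0 < e := by positivity
  have he1 : e ≤ 1 / 2 := min_le_left _ _
  have he2 : e ≤ ε / 4 := min_le_right _ _
  have hlog : Tendsto (fun p : ℕ => Real.log (p : ℝ)) atTop atTop :=
    Real.tendsto_log_atTop.comp tendsto_natCast_atTop_atTop
  have hll := Real.tendsto_log_atTop.comp hlog
  filter_upwards [dest A Z W hW β hβ hZ e he0,
    (QQ_Z Z β hβ hZ).2.eventually_le_const (show E * β < E * β * (1 + e) by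
      have : 0 < E * β * e := by positivity
      linarith), hll.eventually_gt_atTop 0] with p h1 h2 h3
  simp only [Function.comp] at h3
  have hQ := QQ_pos (Z p)
  rw [div_le_iff₀ h3] at h2
  have h4 : (1 - e) * (W p * QQ (Z p)) ≤ (Ph Z W p).card := by
    have := (abs_le.1 h1).1
    linarith
  have h5 : (1 - e) * W p ≤ (QQ (Z p))⁻¹ * (Ph Z W p).card := by
    have h6 : (1 - e) * W p = (QQ (Z p))⁻¹ * ((1 - e) * (W p * QQ (Z p))) := by
      field_simp
    rw [h6]
    exact mul_le_mul_of_nonneg_left h4 (by positivity)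
  have h6 : (1 - e) * W p ≤ E * β * (1 + e) * Real.log (Real.log p) * (Ph Z W p).card :=
    h5.trans (mul_le_mul_of_nonneg_right h2 (Nat.cast_nonneg _))
  set B : ℝ := E * β * Real.log (Real.log p) * (Ph Z W p).card with hB
  have hB0 : 0 ≤ B := by positivity
  have h7 : (1 - e) * W p ≤ (1 + e) * B := by
    rw [hB]
    linarith
  have h8 : (1 + e) ≤ (1 - e) * (1 + ε) := by nlinarith
  have h9 : (1 - e) * W p ≤ (1 - e) * ((1 + ε) * B) := by
    calc (1 - e) * (W p : ℝ) ≤ (1 + e) * B := h7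
      _ ≤ (1 - e) * (1 + ε) * B := mul_le_mul_of_nonneg_right h8 hB0
      _ = _ := by ring
  have h10 := le_of_mul_le_mul_left h9 (by linarith)
  calc (W p : ℝ) ≤ (1 + ε) * B := h10
    _ = _ := by rw [hB]; ring

end Pool.Agent.R526.LS
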