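import Pool.Agent.R526.SP.Cnt
import Pool.Agent.R529.BU.Side

set_option autoImplicit false

/-! # Squares of multiples of a primorial: the survivors -/

namespace Pool.Agent.R526.LS

open Finset Filter Topology
open Pool.Agent.R526.SP (Ph mem_Ph)
open Pool.Agent.R529.BU (RR mem_RR om RR_asym om_le om_ge)

/-- the level -/
noncomputable def zz (c θ L : ℝ) : ℕ := ⌊1 / 4 * (Real.sqrt c * L) ^ θ⌋₊

/-- the length -/
noncomputable def Gw (c L : ℝ) : ℕ := ⌊c * (L + Real.log 2) ^ 2⌋₊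

theorem Y_lim (c : ℝ) (hc : 0 < c) :
    Tendsto (fun L : ℝ => ((⌊c * (L / Real.sqrt c + Real.log 2) ^ 2⌋₊ : ℕ) : ℝ) / L ^ (2 : ℝ)) atTop (𝓝 1) := by
  have hs : 0 < Real.sqrt c := Real.sqrt_pos.2 hc
  have h1 : Tendsto (fun L : ℝ => c * (L / Real.sqrt c + Real.log 2) ^ 2) atTop atTop := by
    apply Tendsto.const_mul_atTop hc
    apply (tendsto_pow_atTop (by norm_num)).comp
    apply tendsto_atTop_add_const_right
    exact tendsto_id.atTop_div_const hs
  have h2 := (tendsto_nat_floor_div_atTop (R := ℝ)).comp h1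
  have h3 : Tendsto (fun L : ℝ => (1 + Real.sqrt c * Real.log 2 * L⁻¹) ^ 2) atTop (𝓝 ((1 + Real.sqrt c * Real.log 2 * 0) ^ 2)) :=
    ((tendsto_inv_atTop_zero.const_mul _).const_add 1).pow 2
  have h4 := h2.mul h3
  rw [mul_zero, add_zero, one_pow, mul_one] at h4
  refine h4.congr' ?_
  filter_upwards [eventually_gt_atTop (0 : ℝ), h1.eventually_gt_atTop 0] with L hL hL2
  simp only [Function.comp]
  have h5 : L ^ (2 : ℝ) = L ^ 2 := Real.rpow_two L
  rw [h5]
  have h6 : c * (L / Real.sqrt c + Real.log 2) ^ 2 = (1 + Real.sqrt c * Real.log 2 * L⁻¹) ^ 2 * L ^ 2 := by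
    have h7 : c = Real.sqrt c ^ 2 := (Real.sq_sqrt hc.le).symm
    calc c * (L / Real.sqrt c + Real.log 2) ^ 2 = (Real.sqrt c * (L / Real.sqrt c + Real.log 2)) ^ 2 := by
          rw [mul_pow, ← h7]
      _ = ((1 + Real.sqrt c * Real.log 2 * L⁻¹) * L) ^ 2 := by
          congr 1
          field_simp
      _ = _ := by ring
  rw [div_mul_eq_mul_div, div_eq_div_iff hL2.ne' (by positivity), h6]
  ring

theorem V_up (c θ δ : ℝ) (hc : 0 < c) (hθ : 0 < θ) (hθ1 : θ < 2) (hδ : 0 < δ) : ∀ᶠ L : ℝ in atTop,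
    ((RR ((Gw c L : ℕ) : ℝ) ((zz c θ L : ℕ) : ℝ)).card : ℝ) ≤ (om (2 / θ) / θ + δ) * (c * L ^ 2 / Real.log L) := by
  have hs : 0 < Real.sqrt c := Real.sqrt_pos.2 hc
  have h1 := RR_asym 2 θ (δ / 2) hθ hθ1 (by positivity) (fun L => ⌊c * (L / Real.sqrt c + Real.log 2) ^ 2⌋₊) (Y_lim c hc)
  have h2 : Tendsto (fun L : ℝ => Real.sqrt c * L) atTop atTop := Tendsto.const_mul_atTop hs tendsto_id
  have ho : om (2 / θ) ≤ 1 := om_le _ (by rw [le_div_iff₀ hθ]; linarith)
  have ho' : 1 / 2 ≤ om (2 / θ) := om_ge _ (by rw [le_div_iff₀ hθ]; linarith)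
  set e : ℝ := (δ / 2) / (1 / θ + δ) with he
  have he0 : 0 < e := by positivity
  have h3 : ∀ᶠ L : ℝ in atTop, Real.log L ≤ (1 + e) * Real.log (Real.sqrt c * L) := by
    filter_upwards [Real.tendsto_log_atTop.eventually_ge_atTop ((1 + e) * |Real.log (Real.sqrt c)| / e),
      eventually_gt_atTop (0 : ℝ)] with L hL hL0
    rw [div_le_iff₀ he0] at hL
    rw [Real.log_mul hs.ne' hL0.ne']
    have := neg_abs_le (Real.log (Real.sqrt c))
    nlinarith
  filter_upwards [h2.eventually h1, h3, eventually_gt_atTop (1 : ℝ), h2.eventually_gt_atTop 1] with L g1 g2 g3 g4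
  obtain ⟨-, g1⟩ := g1
  have h4 : Real.sqrt c * L / Real.sqrt c = L := by field_simp
  rw [h4] at g1
  unfold Gw zz
  refine g1.trans ?_
  have h5 : (Real.sqrt c * L) ^ (2 : ℝ) = c * L ^ 2 := by
    rw [Real.rpow_two, mul_pow, Real.sq_sqrt hc.le]
  rw [h5]
  have hl := Real.log_pos g3
  have hl' := Real.log_pos g4
  have h6 : c * L ^ 2 / Real.log (Real.sqrt c * L) ≤ (1 + e) * (c * L ^ 2 / Real.log L) := by
    rw [← mul_div_assoc, div_le_div_iff₀ hl' hl]
    have : 0 ≤ c * L ^ 2 := by positivity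
    calc c * L ^ 2 * Real.log L ≤ c * L ^ 2 * ((1 + e) * Real.log (Real.sqrt c * L)) := mul_le_mul_of_nonneg_left g2 this
      _ = _ := by ring
  have h7 : (om (2 / θ) / θ + δ / 2) * (1 + e) ≤ om (2 / θ) / θ + δ := by
    have h8 : (om (2 / θ) / θ + δ / 2) * e ≤ δ / 2 := by
      have h9 : om (2 / θ) / θ + δ / 2 ≤ 1 / θ + δ := by
        have : om (2 / θ) / θ ≤ 1 / θ := div_le_div_of_nonneg_right ho hθ.le
        linarith
      calc (om (2 / θ) / θ + δ / 2) * e ≤ (1 / θ + δ) * e := mul_le_mul_of_nonneg_right h9 he0.le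
        _ = δ / 2 := by rw [he]; field_simp
    linarith
  have h8 : 0 ≤ om (2 / θ) / θ + δ / 2 := by positivity
  have h9 : 0 ≤ c * L ^ 2 / Real.log L := by positivity
  calc (om (2 / θ) / θ + δ / 2) * (c * L ^ 2 / Real.log (Real.sqrt c * L)) ≤
        (om (2 / θ) / θ + δ / 2) * ((1 + e) * (c * L ^ 2 / Real.log L)) := mul_le_mul_of_nonneg_left h6 h8
    _ = (om (2 / θ) / θ + δ / 2) * (1 + e) * (c * L ^ 2 / Real.log L) := by ring
    _ ≤ _ := mul_le_mul_of_nonneg_right h7 h9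

theorem level (c θ β : ℝ) (hc : 0 < c) (hθ : 0 < θ) (hθβ : θ < β) (Z : ℕ → ℕ)
    (hZ : Tendsto (fun p : ℕ => Real.log (Z p) / Real.log (Real.log p)) atTop (𝓝 β)) :
    ∀ᶠ L : ℝ in atTop, ∀ p : ℕ, Real.exp L ≤ p → zz c θ L ≤ Z p := by
  set θ' := (θ + β) / 2 with hθ'
  have hθ'1 : θ < θ' := by rw [hθ']; linarith
  obtain ⟨p₁, hp₁⟩ := eventually_atTop.1 (hZ.eventually_const_lt (show θ' < β by rw [hθ']; linarith))
  have hs : 0 < Real.sqrt c := Real.sqrt_pos.2 hc
  filter_upwards [(tendsto_rpow_atTop (show 0 < θ' - θ by linarith)).eventually_ge_atTop ((Real.sqrt c) ^ θ),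
    eventually_ge_atTop (max 2 (p₁ : ℝ))] with L h1 h2 p hp
  have hL2 : 2 ≤ L := (le_max_left _ _).trans h2
  have hL3 : (p₁ : ℝ) ≤ L := (le_max_right _ _).trans h2
  have hL0 : 0 < L := by linarith
  have h3 : L + 1 ≤ Real.exp L := Real.add_one_le_exp L
  have hp0 : (0 : ℝ) < p := by linarith
  have hpp : p₁ ≤ p := by
    have : (p₁ : ℝ) ≤ p := by linarith
    exact_mod_cast this
  have h4 := hp₁ p hpp
  have hlp : L ≤ Real.log p := by
    have := Real.log_le_log (Real.exp_pos L) hp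
    rwa [Real.log_exp] at this
  have hll : 0 < Real.log (Real.log p) := Real.log_pos (by linarith)
  rw [lt_div_iff₀ hll] at h4
  have hlp0 : 0 < Real.log p := by linarith
  have hZ0 : (0 : ℝ) < Z p := by
    rcases Nat.eq_zero_or_pos (Z p) with h | h
    · exfalso
      rw [h] at h4
      simp only [Nat.cast_zero, Real.log_zero] at h4
      have : 0 < θ' * Real.log (Real.log p) := mul_pos (by linarith) hll
      linarith
    · exact_mod_cast h
  have h5 : (Real.log p) ^ θ' ≤ Z p := by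
    rw [← Real.log_le_log_iff (by positivity) hZ0, Real.log_rpow hlp0]
    exact h4.le
  have h6 : L ^ θ' ≤ (Real.log p) ^ θ' := Real.rpow_le_rpow hL0.le hlp (by linarith)
  have h7 : 1 / 4 * (Real.sqrt c * L) ^ θ ≤ L ^ θ' := by
    rw [Real.mul_rpow hs.le hL0.le]
    have h8 : L ^ θ' = L ^ (θ' - θ) * L ^ θ := by
      rw [← Real.rpow_add hL0]
      congr 1
      ring
    rw [h8]
    have h9 : 0 ≤ L ^ θ := by positivity
    have h10 : 0 ≤ Real.sqrt c ^ θ * L ^ θ := by positivity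
    have h11 : Real.sqrt c ^ θ * L ^ θ ≤ L ^ (θ' - θ) * L ^ θ := mul_le_mul_of_nonneg_right h1 h9
    linarith
  have h8 : ((zz c θ L : ℕ) : ℝ) ≤ 1 / 4 * (Real.sqrt c * L) ^ θ := Nat.floor_le (by positivity)
  have h9 : ((zz c θ L : ℕ) : ℝ) ≤ Z p := by linarith
  exact_mod_cast h9

theorem prim (c θ η : ℝ) (hc : 0 < c) (hθ : 0 < θ) (hθ1 : θ < 1) (hη : 0 < η) :
    ∀ᶠ L : ℝ in atTop, (primorial (zz c θ L) : ℝ) ≤ Real.exp (η * L) := by
  have hs : 0 < Real.sqrt c := Real.sqrt_pos.2 hc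
  filter_upwards [(tendsto_rpow_atTop (show 0 < 1 - θ by linarith)).eventually_ge_atTop ((Real.sqrt c) ^ θ / η),
    eventually_gt_atTop (0 : ℝ)] with L h1 hL0
  rw [div_le_iff₀ hη] at h1
  have h2 : (primorial (zz c θ L) : ℝ) ≤ (4 : ℝ) ^ (zz c θ L) := by
    exact_mod_cast primorial_le_four_pow (zz c θ L)
  refine h2.trans ?_
  have h3 : (4 : ℝ) ^ (zz c θ L) = Real.exp ((zz c θ L : ℝ) * Real.log 4) := by
    rw [Real.exp_nat_mul, Real.exp_log (by norm_num)]
  rw [h3]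
  apply Real.exp_le_exp.2
  have h4 : Real.log 4 ≤ 2 := by
    have h5 : (4 : ℝ) = 2 ^ 2 := by norm_num
    rw [h5, Real.log_pow]
    have := Real.log_two_lt_d9
    push_cast
    linarith
  have h5 : ((zz c θ L : ℕ) : ℝ) ≤ 1 / 4 * (Real.sqrt c * L) ^ θ := Nat.floor_le (by positivity)
  have h6 : (Real.sqrt c * L) ^ θ ≤ η * L := by
    rw [Real.mul_rpow hs.le hL0.le]
    have h7 : L = L ^ (1 - θ) * L ^ θ := by
      rw [← Real.rpow_add hL0]
      simp
    calc Real.sqrt c ^ θ * L ^ θ ≤ (L ^ (1 - θ) * η) * L ^ θ := mul_le_mul_of_nonneg_right h1 (by positivity)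
      _ = η * (L ^ (1 - θ) * L ^ θ) := by ring
      _ = η * L := by rw [← h7]
  have h7 : 0 ≤ (Real.sqrt c * L) ^ θ := by positivity
  calc (zz c θ L : ℝ) * Real.log 4 ≤ (1 / 4 * (Real.sqrt c * L) ^ θ) * 2 := by
        apply mul_le_mul h5 h4 (Real.log_nonneg (by norm_num)) (by positivity)
    _ ≤ η * L := by linarith

open Classical in
/-- the destinations in the window -/
theorem win_card (Z W : ℕ → ℕ) (m p w z G : ℕ) (hw : w ≤ G) (hz : z ≤ Z p) (hm : primorial z ∣ m) :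
    ((Ph Z W p).filter (fun m' => m' ∈ Ioc m (m + w))).card ≤ (RR (G : ℝ) (z : ℝ)).card := by
  apply card_le_card_of_injOn (fun m' => m' - m)
  · intro m' hm'
    rw [mem_coe, mem_filter, mem_Ph, mem_Ioc] at hm'
    obtain ⟨⟨-, h1⟩, h2, h3⟩ := hm'
    rw [mem_coe, mem_RR, Nat.floor_natCast]
    refine ⟨⟨?_, ?_⟩, fun q hq hqd => ?_⟩
    · change 1 ≤ m' - m
      omega
    · change m' - m ≤ G
      omega
    change q ∣ m' - m at hqd
    by_contra hc
    have hqz : q ≤ z := by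
      have := not_lt.1 hc
      exact_mod_cast this
    have h4 : q ∣ primorial z := by
      unfold primorial
      apply dvd_prod_of_mem
      rw [mem_filter, mem_range]
      exact ⟨by omega, hq⟩
    have h5 : q ∣ m' := by
      have h6 : m' = m + (m' - m) := by omega
      rw [h6]
      exact dvd_add (h4.trans hm) hqd
    have := h1 q hq h5
    omega
  · intro a ha b hb hab
    rw [mem_coe, mem_filter, mem_Ioc] at ha hb
    simp only at hab
    omega

end Pool.Agent.R526.LS
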