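import Pool.Agent.R526.LS.Win
import Pool.Agent.R526.LS.Row

set_option autoImplicit false

/-! # Squares followed by long intervals without moved primes -/

namespace Pool.Agent.R526.LS

open MeasureTheory ProbabilityTheory Filter Finset Topology Pool.Agent.R526.RS
open Pool.Agent.R526.SP (Ph mem_Ph)
open Pool.Agent.R529.BU (RR mem_RR om om_le om_ge om_cont)

open scoped Classical

variable {Ω : Type} [MeasurableSpace Ω] (μ : Measure Ω) [IsProbabilityMeasure μ] {ξ : ℕ → Ω → ℕ}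

/-- the length of the window -/
noncomputable def wn (c : ℝ) (n : ℕ) : ℕ := ⌊c * (Real.log n) ^ 2⌋₊

/-- the rows -/
noncomputable def SS (c θ : ℝ) (k : ℕ) : Finset ℕ :=
  (Ioc (2 ^ k) (2 * 2 ^ k)).filter (fun n => primorial (zz c θ (Real.log ((2 : ℝ) ^ k))) ∣ n)

/-- the primes -/
noncomputable def FL (p₀ k : ℕ) : Finset ℕ := (Icc 1 (8 * 4 ^ k)).filter (fun p => p.Prime ∧ p₀ ≤ p)

theorem card_mult (a P : ℕ) (hP : 0 < P) : a / P ≤ ((Ioc a (2 * a)).filter (fun n => P ∣ n)).card := by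
  have h1 : ((Ioc (a / P) (2 * a / P)).image (fun j => P * j)) ⊆ (Ioc a (2 * a)).filter (fun n => P ∣ n) := by
    intro n hn
    rw [mem_image] at hn
    obtain ⟨j, hj, rfl⟩ := hn
    rw [mem_Ioc] at hj
    rw [mem_filter, mem_Ioc]
    refine ⟨⟨?_, ?_⟩, Dvd.intro _ rfl⟩
    · have h2 := Nat.lt_mul_div_succ a hP
      have h3 : P * (a / P + 1) ≤ P * j := Nat.mul_le_mul_left P hj.1
      omega
    · calc P * j ≤ P * (2 * a / P) := Nat.mul_le_mul_left P hj.2
        _ ≤ 2 * a := Nat.mul_div_le _ _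
  have h2 := card_le_card h1
  rw [card_image_of_injective _ (fun u v huv => Nat.eq_of_mul_eq_mul_left hP huv), Nat.card_Ioc] at h2
  have h3 : 2 * (a / P) ≤ 2 * a / P := Nat.mul_div_le_mul_div_assoc 2 a P
  omega

/-- no window is avoided -/
def Bad (ξ : ℕ → Ω → ℕ) (c θ : ℝ) (p₀ k : ℕ) : Set Ω :=
  ⋂ n ∈ SS c θ k, (Av ξ (FL p₀ k) (Ioc (n ^ 2) (n ^ 2 + wn c n)))ᶜ

theorem bad_prob (hξ : ∀ p, Measurable (ξ p)) (hind : iIndepFun ξ μ) (A : ℕ) (hA : 1 ≤ A) (Z W : ℕ → ℕ)
    (hW : Tendsto (fun p : ℕ => (W p : ℝ) / Dl A p) atTop (𝓝 1)) (β : ℝ) (hβ : 0 < β)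
    (hZ : Tendsto (fun p : ℕ => Real.log (Z p) / Real.log (Real.log p)) atTop (𝓝 β)) (p₀ : ℕ)
    (hlaw : ∀ p, p.Prime → p₀ ≤ p → Law3 μ (ξ p) (Ph Z W p)) (c θ δ e η : ℝ) (hc : 0 < c) (hθ : 0 < θ)
    (hθβ : θ < β) (hθ1 : θ < 1) (hδ : 0 < δ) (he : 0 < e) (he1 : e ≤ 1 / 10) (hη : 0 < η) (hη1 : η < 1 / 3)
    (hcost : (1 + 30 * e) * (Real.exp Real.eulerMascheroniConstant * β *
      ((om (2 / θ) / θ + δ) * c * (1 + δ) / 2)) < 1 - 3 * η) :
    ∀ᶠ k : ℕ in atTop, μ.real (Bad ξ c θ p₀ k) ≤ ((2 : ℝ) ^ (-η)) ^ k := by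
  set E := Real.exp Real.eulerMascheroniConstant with hE
  have hE0 : 0 < E := Real.exp_pos _
  obtain ⟨n₀, hn₀⟩ := eventually_atTop.1 (one_low μ hξ hind A hA Z W hW β hβ hZ p₀ hlaw c e hc he he1)
  -- `W p ≤ p`
  have hWle : ∀ᶠ p : ℕ in atTop, W p ≤ p := by
    filter_upwards [hW.eventually_le_const (show (1 : ℝ) < 2 by norm_num), basic A 2 1 one_pos] with p h1 h2
    obtain ⟨h3, h4, -, h5⟩ := h2
    have hp0 : (0 : ℝ) < p := by linarith
    have hD : 0 < Dl A p := by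
      unfold Dl
      have : 0 < Real.log (p : ℝ) := by linarith
      positivity
    rw [div_le_iff₀ hD] at h1
    have h6 : Dl A p ≤ p / 2 := by
      unfold Dl
      apply div_le_div_of_nonneg_left hp0.le (by norm_num)
      calc (2 : ℝ) ≤ Real.log p := h3
        _ = (Real.log p) ^ 1 := (pow_one _).symm
        _ ≤ (Real.log p) ^ A := pow_le_pow_right₀ (by linarith) hA
    have h7 : (W p : ℝ) ≤ p := by linarith
    exact_mod_cast h7
  obtain ⟨p₂, hp₂⟩ := eventually_atTop.1 hWle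
  set B₀ : ℕ := ∑ p ∈ range p₂, W p with hB₀
  have hWB : ∀ p, W p ≤ p + B₀ := by
    intro p
    rcases le_or_gt p₂ p with h | h
    · have := hp₂ p h
      omega
    · have : W p ≤ B₀ := single_le_sum (f := W) (fun i _ => Nat.zero_le _) (mem_range.2 h)
      omega
  -- the eventual conditions in `L`
  have hLt : Tendsto (fun k : ℕ => Real.log ((2 : ℝ) ^ k)) atTop atTop :=
    Real.tendsto_log_atTop.comp (tendsto_pow_atTop_atTop_of_one_lt (by norm_num))
  have hxt : Tendsto (fun k : ℕ => (2 : ℝ) ^ k) atTop atTop := tendsto_pow_atTop_atTop_of_one_lt (by norm_num)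
  have e1 : ∀ᶠ L : ℝ in atTop, 2 * Real.log 2 + Real.log L ≤ (1 + δ) * Real.log L := by
    filter_upwards [Real.tendsto_log_atTop.eventually_ge_atTop (2 * Real.log 2 / δ)] with L hL
    rw [div_le_iff₀ hδ] at hL
    linarith
  have e2 : ∀ᶠ n : ℕ in atTop, c * (Real.log n) ^ 2 ≤ n := by
    have h1 := (Real.isLittleO_pow_log_id_atTop (n := 2)).def (show (0 : ℝ) < 1 / c by positivity)
    filter_upwards [tendsto_natCast_atTop_atTop.eventually h1] with n h2
    rw [Real.norm_of_nonneg (by positivity), id, Real.norm_of_nonneg (Nat.cast_nonneg n)] at h2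
    calc c * (Real.log n) ^ 2 ≤ c * (1 / c * n) := mul_le_mul_of_nonneg_left h2 hc.le
      _ = n := by field_simp
  obtain ⟨n₁, hn₁⟩ := eventually_atTop.1 e2
  have hθ2 : θ < 2 := by linarith
  filter_upwards [hLt.eventually (V_up c θ δ hc hθ hθ2 hδ), hLt.eventually (level c θ β hc hθ hθβ Z hZ),
    hLt.eventually (prim c θ η hc hθ hθ1 hη), hLt.eventually e1, hLt.eventually_ge_atTop 4,
    hxt.eventually_ge_atTop ((n₀ : ℝ) + n₁ + B₀ + 8),
    ((tendsto_rpow_atTop hη).comp hxt).eventually_ge_atTop 6,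
    ((tendsto_rpow_atTop (show 0 < 1 - η by linarith)).comp hxt).eventually_ge_atTop 2]
    with k g1 g2 g3 g4 g5 g6 g7 g8
  simp only [Function.comp] at g7 g8
  set x : ℝ := (2 : ℝ) ^ k with hx
  set L := Real.log x with hL
  have hx0 : 0 < x := by positivity
  have hL0 : 0 < L := by linarith
  have hlL : 0 < Real.log L := Real.log_pos (by linarith)
  have hx8 : 8 ≤ x := by
    have h1 : (0 : ℝ) ≤ n₀ := Nat.cast_nonneg _
    have h2 : (0 : ℝ) ≤ n₁ := Nat.cast_nonneg _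
    have h3 : (0 : ℝ) ≤ B₀ := Nat.cast_nonneg _
    linarith
  have hxn : ((2 ^ k : ℕ) : ℝ) = x := by rw [hx]; push_cast; rfl
  set P := primorial (zz c θ L) with hP
  have hP0 : 0 < P := primorial_pos _
  set S := SS c θ k with hS
  have hSm : ∀ n ∈ S, 2 ^ k < n ∧ n ≤ 2 * 2 ^ k ∧ P ∣ n := by
    intro n hn
    rw [hS, SS, mem_filter, mem_Ioc] at hn
    exact ⟨hn.1.1, hn.1.2, hn.2⟩
  have hSx : ∀ n ∈ S, x < n ∧ (n : ℝ) ≤ 2 * x := by
    intro n hn
    obtain ⟨h1, h2, -⟩ := hSm n hn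
    rw [← hxn]
    exact ⟨by exact_mod_cast h1, by exact_mod_cast h2⟩
  have hbign : n₀ + n₁ + B₀ + 8 ≤ 2 ^ k := by
    have : ((n₀ + n₁ + B₀ + 8 : ℕ) : ℝ) ≤ ((2 ^ k : ℕ) : ℝ) := by
      rw [hxn]; push_cast; linarith
    exact_mod_cast this
  have hwle : ∀ n ∈ S, wn c n ≤ n := by
    intro n hn
    obtain ⟨h1, -, -⟩ := hSm n hn
    have h2 := hn₁ n (by omega)
    unfold wn
    exact Nat.floor_le_of_le h2
  set V := (RR ((Gw c L : ℕ) : ℝ) ((zz c θ L : ℕ) : ℝ)).card with hV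
  set B : ℕ → Set Ω := fun n => Av ξ (FL p₀ k) (Ioc (n ^ 2) (n ^ 2 + wn c n)) with hB
  have hsec := second_le μ B (fun n => Av_meas hξ _ _) S 0 (by
    intro n hn m hm hnm
    apply Av_neg μ hξ hind
    rw [disjoint_left]
    intro q hq hq'
    rw [mem_Ioc] at hq hq'
    have h1 := hwle n hn
    have h2 : (n + 1) ^ 2 ≤ m ^ 2 := Nat.pow_le_pow_left (by omega) 2
    have h3 : (n + 1) ^ 2 = n ^ 2 + 2 * n + 1 := by ring
    omega) (∑ n ∈ S, μ.real (B n)) rfl
  set Es := ∑ n ∈ S, μ.real (B n) with hEs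
  set D : ℝ := (1 + 30 * e) * (E * β * ((om (2 / θ) / θ + δ) * c * (1 + δ) / 2)) with hD
  have hEn : ∀ n ∈ S, Real.exp (-(D * L + 1)) ≤ μ.real (B n) := by
    intro n hn
    obtain ⟨h1, h2⟩ := hSx n hn
    obtain ⟨h1', h2', h3'⟩ := hSm n hn
    have hn0 : (0 : ℝ) < n := by linarith
    have hln1 : L ≤ Real.log n := Real.log_le_log hx0 h1.le
    have hln2 : Real.log n ≤ L + Real.log 2 := by
      have := Real.log_le_log hn0 h2
      rw [Real.log_mul (by norm_num) hx0.ne'] at this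
      linarith
    have hl2 := Real.log_two_lt_d9
    have hl20 : 0 < Real.log 2 := Real.log_pos (by norm_num)
    have hln3 : Real.log n ≤ 2 * L := by linarith
    have hsq : Real.log ((n ^ 2 : ℕ) : ℝ) = 2 * Real.log n := by
      push_cast
      rw [Real.log_pow]
      norm_num
    have hw1 : (wn c n : ℝ) ≤ c * (Real.log n) ^ 2 := Nat.floor_le (by positivity)
    have hVG : V ≤ Gw c L := by
      rw [hV]
      calc (RR ((Gw c L : ℕ) : ℝ) ((zz c θ L : ℕ) : ℝ)).card ≤ (Icc 1 (Gw c L)).card := by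
            apply card_le_card
            intro m hm
            rw [mem_RR, Nat.floor_natCast] at hm
            rw [mem_Icc]
            exact hm.1
        _ = Gw c L := by rw [Nat.card_Icc]; omega
    have hV1 : (V : ℝ) ≤ c * (2 * Real.log n) ^ 2 := by
      have h3 : (V : ℝ) ≤ Gw c L := by exact_mod_cast hVG
      have h4 : (Gw c L : ℝ) ≤ c * (L + Real.log 2) ^ 2 := Nat.floor_le (by positivity)
      refine h3.trans (h4.trans ?_)
      apply mul_le_mul_of_nonneg_left _ hc.le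
      apply pow_le_pow_left₀ (by linarith)
      linarith
    have hnn : n ≤ n ^ 2 := by nlinarith
    have hb := hn₀ (n ^ 2) (by omega) (wn c n) V (by
      rw [hsq]
      refine hw1.trans ?_
      apply mul_le_mul_of_nonneg_left _ hc.le
      apply pow_le_pow_left₀ (by linarith)
      linarith) (by rw [hsq]; exact hV1) (by
      intro p hp1 hp2
      apply win_card
      · unfold wn Gw
        apply Nat.floor_le_floor
        apply mul_le_mul_of_nonneg_left _ hc.le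
        exact pow_le_pow_left₀ (by linarith) hln2 2
      · apply g2
        have h3 := hWB p
        have h4 : 2 ^ k ≤ p := by
          have h5 : 2 ^ k * 8 ≤ n ^ 2 := by
            have h6 : 2 ^ k * 2 ^ k ≤ n * n := Nat.mul_le_mul h1'.le h1'.le
            have h7 : 2 ^ k * 8 ≤ 2 ^ k * 2 ^ k := Nat.mul_le_mul_left _ (by omega)
            nlinarith
          omega
        rw [hL, Real.exp_log hx0, ← hxn]
        exact_mod_cast h4
      · exact dvd_pow h3' (by norm_num)) (FL p₀ k) (by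
      intro p hp
      unfold FL at hp
      exact (mem_filter.1 hp).2)
    refine le_trans ?_ hb
    apply Real.exp_le_exp.2
    rw [hsq, neg_le_neg_iff]
    have h5 : V * Real.log (2 * Real.log n) / (2 * Real.log n) ≤ (om (2 / θ) / θ + δ) * c * (1 + δ) / 2 * L := by
      have ho' : 1 / 2 ≤ om (2 / θ) := om_ge _ (by rw [le_div_iff₀ hθ]; linarith)
      have h6 : Real.log (2 * Real.log n) ≤ (1 + δ) * Real.log L := by
        refine le_trans ?_ g4
        have h7 : Real.log (2 * Real.log n) ≤ Real.log (2 * (2 * L)) :=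
          Real.log_le_log (by linarith) (by linarith)
        have h8 : Real.log (2 * (2 * L)) = Real.log 2 + (Real.log 2 + Real.log L) := by
          rw [Real.log_mul (by norm_num) (by positivity), Real.log_mul (by norm_num) hL0.ne']
        linarith
      have h7 : 0 ≤ Real.log (2 * Real.log n) := Real.log_nonneg (by linarith)
      rw [div_le_iff₀ (by linarith)]
      have h8 : 0 ≤ (om (2 / θ) / θ + δ) := by positivity
      calc V * Real.log (2 * Real.log n) ≤ ((om (2 / θ) / θ + δ) * (c * L ^ 2 / Real.log L)) * ((1 + δ) * Real.log L) :=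
            mul_le_mul g1 h6 h7 (by positivity)
        _ = (om (2 / θ) / θ + δ) * c * (1 + δ) / 2 * L * (2 * L) := by
            field_simp
        _ ≤ (om (2 / θ) / θ + δ) * c * (1 + δ) / 2 * L * (2 * Real.log n) := by
            apply mul_le_mul_of_nonneg_left (by linarith)
            positivity
    have h6 : (1 + 30 * e) * (E * β * (V * Real.log (2 * Real.log n) / (2 * Real.log n))) ≤ D * L := by
      rw [hD]
      calc (1 + 30 * e) * (E * β * (V * Real.log (2 * Real.log n) / (2 * Real.log n))) ≤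
            (1 + 30 * e) * (E * β * ((om (2 / θ) / θ + δ) * c * (1 + δ) / 2 * L)) := by
            apply mul_le_mul_of_nonneg_left _ (by positivity)
            exact mul_le_mul_of_nonneg_left h5 (by positivity)
        _ = _ := by ring
    linarith
  -- the number of rows
  have hcard : x ^ (1 - η) / 2 ≤ S.card := by
    have h1 : 2 ^ k / P ≤ S.card := by
      rw [hS]
      unfold SS
      exact card_mult (2 ^ k) P hP0
    have h2 : x / P - 1 ≤ ((2 ^ k / P : ℕ) : ℝ) := by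
      have h3 := Nat.lt_div_mul_add (a := 2 ^ k) hP0
      have h4 : x < ((2 ^ k / P : ℕ) : ℝ) * P + P := by
        rw [← hxn]
        exact_mod_cast h3
      have hPr : (0 : ℝ) < P := by exact_mod_cast hP0
      rw [sub_le_iff_le_add, div_le_iff₀ hPr]
      linarith
    have h3 : x ^ (1 - η) ≤ x / P := by
      have hPr : (0 : ℝ) < P := by exact_mod_cast hP0
      rw [le_div_iff₀ hPr]
      have h4 : Real.exp (η * L) = x ^ η := by
        rw [hL, mul_comm, Real.exp_mul, Real.exp_log hx0]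
      rw [h4] at g3
      calc x ^ (1 - η) * P ≤ x ^ (1 - η) * x ^ η := mul_le_mul_of_nonneg_left g3 (by positivity)
        _ = x := by
            rw [← Real.rpow_add hx0]
            simp
    have h4 : ((2 ^ k / P : ℕ) : ℝ) ≤ S.card := by exact_mod_cast h1
    linarith
  have hElow : x ^ (2 * η) / 6 ≤ Es := by
    have b1 : (S.card : ℝ) * Real.exp (-(D * L + 1)) ≤ Es := by
      rw [hEs, ← nsmul_eq_mul, ← sum_const]
      exact sum_le_sum hEn
    refine le_trans ?_ b1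
    have b2 : x ^ (-(1 - 3 * η)) / 3 ≤ Real.exp (-(D * L + 1)) := by
      rw [Real.rpow_def_of_pos hx0, ← hL]
      have h1 : Real.exp (L * -(1 - 3 * η)) ≤ Real.exp (-(D * L)) := by
        apply Real.exp_le_exp.2
        nlinarith
      have h2 : Real.exp (-(D * L + 1)) = Real.exp (-(D * L)) * Real.exp (-1) := by
        rw [← Real.exp_add]
        congr 1
        ring
      have h3 : (1 : ℝ) / 3 ≤ Real.exp (-1) := by
        rw [Real.exp_neg, one_div]
        apply inv_anti₀ (Real.exp_pos _)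
        have := Real.exp_one_lt_d9
        linarith
      rw [h2]
      calc Real.exp (L * -(1 - 3 * η)) / 3 = Real.exp (L * -(1 - 3 * η)) * (1 / 3) := by ring
        _ ≤ _ := mul_le_mul h1 h3 (by norm_num) (Real.exp_pos _).le
    calc x ^ (2 * η) / 6 = x ^ (1 - η) / 2 * (x ^ (-(1 - 3 * η)) / 3) := by
          have h1 : x ^ (2 * η) = x ^ (1 - η) * x ^ (-(1 - 3 * η)) := by
            rw [← Real.rpow_add hx0]
            congr 1
            ring
          rw [h1]
          ring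
      _ ≤ S.card * Real.exp (-(D * L + 1)) := mul_le_mul hcard b2 (by positivity) (Nat.cast_nonneg _)
  have hE1 : 0 < Es := lt_of_lt_of_le (by positivity) hElow
  set q := μ.real (Bad ξ c θ p₀ k) with hq
  have hb1 : q * Es ≤ 1 := by
    have b1 : q * Es ^ 2 ≤ (2 * ((0 : ℕ) : ℝ) + 1) * Es := hsec
    rw [Nat.cast_zero, mul_zero, zero_add] at b1
    have b2 : q * Es * Es ≤ 1 * Es := by nlinarith
    exact le_of_mul_le_mul_right b2 hE1
  have hpow : ((2 : ℝ) ^ (-η)) ^ k = x ^ (-η) := by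
    rw [hx, ← Real.rpow_natCast, ← Real.rpow_natCast, ← Real.rpow_mul (by norm_num), ← Real.rpow_mul (by norm_num), mul_comm]
  rw [hpow]
  have hx2 : x ^ (2 * η) = x ^ η * x ^ η := by rw [← Real.rpow_add hx0]; congr 1; ring
  have hxnn : x ^ (-η) = (x ^ η)⁻¹ := Real.rpow_neg hx0.le η
  have hxp : 0 < x ^ η := by positivity
  rw [hxnn, ← one_div, le_div_iff₀ hxp]
  have hfin : q * (x ^ (2 * η) / 6) ≤ 1 := (mul_le_mul_of_nonneg_left hElow measureReal_nonneg).trans hb1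
  rw [hx2] at hfin
  have h1 : q * x ^ η ≤ q * (x ^ η * x ^ η / 6) := by
    apply mul_le_mul_of_nonneg_left _ measureReal_nonneg
    nlinarith
  linarith

/-- choice of the parameters -/
theorem params (β c : ℝ) (hβ : 0 < β) (hβ1 : β ≤ 1)
    (h : Real.exp Real.eulerMascheroniConstant * om (2 / β) * c / 2 < 1) :
    ∃ s : ℝ, 0 < s ∧ s < 1 / 10 ∧ (1 + 30 * s) * (Real.exp Real.eulerMascheroniConstant * β *
      ((om (2 / (β * (1 - s))) / (β * (1 - s)) + s) * c * (1 + s) / 2)) < 1 - 3 * s := by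
  set E := Real.exp Real.eulerMascheroniConstant with hE
  have hcont : ContinuousAt (fun s : ℝ => (1 + 30 * s) * (E * β *
      ((om (2 / (β * (1 - s))) / (β * (1 - s)) + s) * c * (1 + s) / 2)) + 3 * s) 0 := by
    have h1 : ContinuousAt (fun s : ℝ => β * (1 - s)) 0 := by fun_prop
    have h2 : (fun s : ℝ => β * (1 - s)) 0 ≠ 0 := by simp [hβ.ne']
    have h3 : ContinuousAt (fun s : ℝ => 2 / (β * (1 - s))) 0 := continuousAt_const.div h1 h2
    have h4 : ContinuousAt (fun s : ℝ => om (2 / (β * (1 - s)))) 0 :=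
      ContinuousAt.comp (g := om) om_cont.continuousAt h3
    have h5 : ContinuousAt (fun s : ℝ => om (2 / (β * (1 - s))) / (β * (1 - s))) 0 := h4.div h1 h2
    fun_prop
  have h0 : (fun s : ℝ => (1 + 30 * s) * (E * β *
      ((om (2 / (β * (1 - s))) / (β * (1 - s)) + s) * c * (1 + s) / 2)) + 3 * s) 0 < 1 := by
    simp only [mul_zero, add_zero, sub_zero, mul_one, one_mul]
    calc E * β * (om (2 / β) / β * c / 2) = E * om (2 / β) * c / 2 := by field_simp
      _ < 1 := h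
  have h1 := hcont.eventually_lt_const h0
  obtain ⟨r, hr, hball⟩ := Metric.eventually_nhds_iff.1 h1
  refine ⟨min (r / 2) (1 / 20), by positivity, lt_of_le_of_lt (min_le_right _ _) (by norm_num), ?_⟩
  have h2 := hball (y := min (r / 2) (1 / 20)) (by
    rw [Real.dist_eq, sub_zero, abs_of_pos (by positivity)]
    exact lt_of_le_of_lt (min_le_left _ _) (by linarith))
  linarith

theorem pow_between (N : ℕ) (hN : 2 ≤ N) : ∃ k : ℕ, N ≤ 2 ^ k ∧ 2 ^ k < 2 * N := by
  have h1 : ∃ k : ℕ, N ≤ 2 ^ k := ⟨N, Nat.lt_two_pow_self.le⟩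
  obtain ⟨k, hk1, hk2⟩ : ∃ k : ℕ, N ≤ 2 ^ k ∧ ∀ m < k, ¬ N ≤ 2 ^ m :=
    ⟨Nat.find h1, Nat.find_spec h1, fun m hm => Nat.find_min h1 hm⟩
  refine ⟨k, hk1, ?_⟩
  have h3 : k ≠ 0 := by
    intro h0
    rw [h0] at hk1
    omega
  have h4 := hk2 (k - 1) (by omega)
  have h5 : 2 ^ k = 2 * 2 ^ (k - 1) := by
    rw [← pow_succ']
    congr 1
    omega
  omega

/-- squares followed by long free intervals -/
theorem squares (hξ : ∀ p, Measurable (ξ p)) (hind : iIndepFun ξ μ) (A : ℕ) (hA : 1 ≤ A) (Z W : ℕ → ℕ)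
    (hW : Tendsto (fun p : ℕ => (W p : ℝ) / Dl A p) atTop (𝓝 1)) (β : ℝ) (hβ : 0 < β) (hβ1 : β ≤ 1)
    (hZ : Tendsto (fun p : ℕ => Real.log (Z p) / Real.log (Real.log p)) atTop (𝓝 β)) (p₀ : ℕ)
    (hlaw : ∀ p, p.Prime → p₀ ≤ p → Law3 μ (ξ p) (Ph Z W p)) (c : ℝ) (hc : 0 < c)
    (h : Real.exp Real.eulerMascheroniConstant * om (2 / β) * c / 2 < 1) :
    ∀ᵐ ω ∂μ, ∀ᶠ N : ℕ in atTop, ∃ n : ℕ, N < n ∧ n ≤ 4 * N ∧
      ∀ p : ℕ, p.Prime → ¬ (n ^ 2 < ξ p ω ∧ ξ p ω ≤ n ^ 2 + ⌊c * (Real.log n) ^ 2⌋₊) := by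
  obtain ⟨s, hs0, hs1, hs⟩ := params β c hβ hβ1 h
  have hθ0 : 0 < β * (1 - s) := mul_pos hβ (by linarith)
  have hθβ : β * (1 - s) < β := by nlinarith
  have hbad := bad_prob μ hξ hind A hA Z W hW β hβ hZ p₀ hlaw c (β * (1 - s)) s s s hc hθ0 hθβ (by linarith)
    hs0 hs0 hs1.le hs0 (by linarith) hs
  have hr0 : 0 ≤ (2 : ℝ) ^ (-s) := by positivity
  have hr1 : (2 : ℝ) ^ (-s) < 1 := Real.rpow_lt_one_of_one_lt_of_neg (by norm_num) (by linarith)
  have hbc := bc_sum μ (fun k => Bad ξ c (β * (1 - s)) p₀ k) (fun k => ((2 : ℝ) ^ (-s)) ^ k)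
    (fun k => by positivity) (summable_geometric_of_lt_one hr0 hr1) hbad
  have hae : ∀ᵐ ω ∂μ, ∀ p : ℕ, p.Prime → p₀ ≤ p → ξ p ω ∈ Ph Z W p := by
    rw [ae_all_iff]
    intro p
    by_cases hp : p.Prime ∧ p₀ ≤ p
    · filter_upwards [(hlaw p hp.1 hp.2).1] with ω hω _ _
      exact hω
    · filter_upwards with ω h1 h2
      exact absurd ⟨h1, h2⟩ hp
  have e2 : ∀ᶠ n : ℕ in atTop, c * (Real.log n) ^ 2 ≤ n := by
    have h1 := (Real.isLittleO_pow_log_id_atTop (n := 2)).def (show (0 : ℝ) < 1 / c by positivity)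
    filter_upwards [tendsto_natCast_atTop_atTop.eventually h1] with n h2
    rw [Real.norm_of_nonneg (by positivity), id, Real.norm_of_nonneg (Nat.cast_nonneg n)] at h2
    calc c * (Real.log n) ^ 2 ≤ c * (1 / c * n) := mul_le_mul_of_nonneg_left h2 hc.le
      _ = n := by field_simp
  obtain ⟨n₁, hn₁⟩ := eventually_atTop.1 e2
  filter_upwards [hbc, hae] with ω hω hω2
  obtain ⟨k₀, hk₀⟩ := eventually_atTop.1 hω
  obtain ⟨M, hM⟩ : ∃ M : ℕ, ∀ p < p₀, ξ p ω ≤ M :=
    ⟨∑ p ∈ range p₀, ξ p ω, fun p hp => single_le_sum (f := fun p => ξ p ω) (fun i _ => Nat.zero_le _) (mem_range.2 hp)⟩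
  obtain ⟨K, hK⟩ : ∃ K : ℕ, K = 2 ^ (k₀ + 1) := ⟨_, rfl⟩
  filter_upwards [eventually_ge_atTop (K + M + n₁ + 4)] with N hN
  obtain ⟨k, hk1, hk2⟩ : ∃ k : ℕ, N ≤ 2 ^ k ∧ 2 ^ k < 2 * N := pow_between N (by omega)
  have hkk : k₀ ≤ k := by
    by_contra hcon
    have h1 : 2 ^ k ≤ K := by
      rw [hK]
      exact Nat.pow_le_pow_right (by norm_num) (by omega)
    omega
  have h1 := hk₀ k hkk
  unfold Bad at h1
  simp only [Set.mem_iInter, Set.mem_compl_iff, not_forall, not_not] at h1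
  obtain ⟨n, hn, hnA⟩ := h1
  rw [mem_Av] at hnA
  rw [SS, mem_filter, mem_Ioc] at hn
  have hnn : n ≤ n ^ 2 := by nlinarith
  have hw : wn c n ≤ n := Nat.floor_le_of_le (hn₁ n (by omega))
  refine ⟨n, by omega, by omega, ?_⟩
  rintro p hp ⟨hp1, hp2⟩
  change ξ p ω ≤ n ^ 2 + wn c n at hp2
  rcases lt_or_ge p p₀ with h2 | h2
  · have h3 : ξ p ω ≤ M := hM p h2
    omega
  · have h3 := hω2 p hp h2
    rw [mem_Ph] at h3
    have h4 : p ∈ FL p₀ k := by
      unfold FL
      rw [mem_filter, mem_Icc]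
      refine ⟨⟨hp.one_lt.le, ?_⟩, hp, h2⟩
      have h5 : n ^ 2 ≤ (2 * 2 ^ k) ^ 2 := Nat.pow_le_pow_left hn.1.2 2
      have h6 : (2 * 2 ^ k) ^ 2 = 4 * 4 ^ k := by
        rw [mul_pow, ← pow_mul, mul_comm k 2, pow_mul]
        norm_num
      omega
    exact hnA p h4 (by rw [mem_Ioc]; exact ⟨hp1, hp2⟩)

end Pool.Agent.R526.LS
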