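import Pool.Agent.R526.LS.Win

set_option autoImplicit false

/-! # For small sieving levels the intervals after the squares are never free -/

namespace Pool.Agent.R526.LS

open MeasureTheory ProbabilityTheory Filter Finset Topology Pool.Agent.R526.RS
open Pool.Agent.R526.SP (Ph mem_Ph)
open Pool.Agent.H510R2.Maier (QQ QQ_pos QQ_real)

open scoped Classical

/-- the primes up to `n ^ 2` -/
noncomputable def GF (p₀ n : ℕ) : Finset ℕ := (Icc 1 (n ^ 2)).filter (fun p => p.Prime ∧ p₀ ≤ p)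

theorem up_prob (c : ℝ) (hc : 2 < c) : ∃ β₀ : ℝ, 0 < β₀ ∧
    ∀ (Ω : Type) [MeasurableSpace Ω] (μ : Measure Ω) [IsProbabilityMeasure μ] (ξ : ℕ → Ω → ℕ)
    (_ : ∀ p, Measurable (ξ p)) (_ : iIndepFun ξ μ)
    (A : ℕ) (_ : 1 ≤ A) (Z W : ℕ → ℕ) (_ : Tendsto (fun p : ℕ => (W p : ℝ) / Dl A p) atTop (𝓝 1)) (β : ℝ)
    (_ : 0 < β) (_ : β ≤ β₀)
    (_ : Tendsto (fun p : ℕ => Real.log (Z p) / Real.log (Real.log p)) atTop (𝓝 β)) (p₀ : ℕ)
    (_ : ∀ p, p.Prime → p₀ ≤ p → Law3 μ (ξ p) (Ph Z W p)),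
    ∀ᶠ n : ℕ in atTop, μ.real (Av ξ (GF p₀ n) (Ioc (n ^ 2) (n ^ 2 + ⌊c * (Real.log n) ^ 2⌋₊))) ≤
      Real.exp 1 * (1 / (n : ℝ) ^ (1 + (c - 2) / 4)) := by
  set e : ℝ := (c - 2) / (16 * c) with he
  have hc0 : 0 < c := by linarith
  have he0 : 0 < e := div_pos (by linarith) (by linarith)
  have he1 : e ≤ 1 / 10 := by
    rw [he, div_le_iff₀ (by linarith)]
    linarith
  obtain ⟨K, y0, hK, hR⟩ := rough e he0
  have hK0 : (0 : ℝ) < K := by exact_mod_cast hK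
  refine ⟨1 / (2 * K), by positivity, ?_⟩
  intro Ω _ μ _ ξ hξ hind A hA Z W hW β hβ hβ1 hZ p₀ hlaw
  obtain ⟨hZ1, -⟩ := QQ_Z Z β hβ hZ
  have hlog : Tendsto (fun p : ℕ => Real.log (p : ℝ)) atTop atTop :=
    Real.tendsto_log_atTop.comp tendsto_natCast_atTop_atTop
  obtain ⟨p₁, hp₁⟩ := eventually_atTop.1 (((dest A Z W hW β hβ hZ e he0).and (hZ1.eventually_ge_atTop (y0 + 1))).and
    ((hZ.eventually_le_const (show β < 2 * β by linarith)).and
      (hlog.eventually_ge_atTop 3)))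
  have hsq : Tendsto (fun n : ℕ => n ^ 2) atTop atTop := tendsto_pow_atTop (by norm_num)
  have hev := (shifts A hA W hW e he0 he1 (c + 1)).and ((primes_left A hA e he0 he1).and
    ((basic A 4 1 one_pos).and (eventually_ge_atTop (2 * p₁ + 2 * p₀ + 100))))
  filter_upwards [hsq.eventually hev, hlog.eventually_ge_atTop 2] with n hn hn2
  obtain ⟨hsh, hpr, hba, hnp⟩ := hn
  obtain ⟨s0, s1, s2, s3, s4⟩ := hsh
  have hpr2 := hpr.2
  obtain ⟨hL4, hΔL, -, hn4⟩ := hba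
  have hn0 : (0 : ℝ) < n := by
    rcases Nat.eq_zero_or_pos n with h0 | h0
    · rw [h0] at hn2
      norm_num at hn2
    · exact_mod_cast h0
  have hlm : Real.log ((n ^ 2 : ℕ) : ℝ) = 2 * Real.log n := by
    push_cast
    rw [Real.log_pow]
    norm_num
  set m : ℕ := n ^ 2 with hm
  set Δ := Dl A m with hΔ
  set l := Real.log n with hl
  have hl0 : 0 < l := by linarith
  have hm0 : (0 : ℝ) < m := by linarith
  rw [hlm] at hL4 hΔL s4 hpr2
  have hΔ0 : 0 < Δ := by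
    have : 0 < (2 * l) ^ 2 := by positivity
    linarith
  have hΔn : Δ ≤ m / 4 := by
    rw [hΔ]
    unfold Dl
    rw [hlm]
    apply div_le_div_of_nonneg_left hm0.le (by norm_num)
    calc (4 : ℝ) ≤ 2 * l := hL4
      _ = (2 * l) ^ 1 := (pow_one _).symm
      _ ≤ (2 * l) ^ A := pow_le_pow_right₀ (by linarith) hA
  set w : ℕ := ⌊c * l ^ 2⌋₊ with hw
  have hwr : (w : ℝ) ≤ c * l ^ 2 := Nat.floor_le (by positivity)
  have hwr2 : c * l ^ 2 - 1 ≤ w := by
    have := Nat.lt_floor_add_one (c * l ^ 2)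
    linarith
  have hwΔ : (w : ℝ) ≤ e * Δ := by
    refine le_trans ?_ s4
    have h2 : 0 ≤ l ^ 2 := by positivity
    nlinarith
  rw [Av_real μ hξ hind]
  set R := (Icc 1 m).filter (fun p : ℕ => p.Prime ∧ (m : ℝ) - (1 - 3 * e) * Δ < p) with hRd
  have hRF : R ⊆ GF p₀ n := by
    intro p hp
    rw [hRd, mem_filter] at hp
    unfold GF
    rw [mem_filter]
    refine ⟨hp.1, hp.2.1, ?_⟩
    have h1 : (m : ℝ) / 2 ≤ p := by nlinarith [hp.2.2]
    have h2 : m ≤ 2 * p := by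
      have : (m : ℝ) ≤ ((2 * p : ℕ) : ℝ) := by push_cast; linarith
      exact_mod_cast this
    omega
  have hterm : ∀ p ∈ R, (1 - e) / ((1 + e) * (1 + e)) * (w / Δ) ≤ μ.real {ω | ξ p ω ∈ Ioc m (m + w)} := by
    intro p hp
    have hpF := hRF hp
    unfold GF at hpF
    rw [mem_filter] at hpF
    rw [hRd, mem_filter, mem_Icc] at hp
    obtain ⟨⟨h1, h2⟩, h3, h4⟩ := hp
    have h5 : (m : ℝ) / 2 ≤ p := by nlinarith
    have h6 : m ≤ 2 * p := by
      have : (m : ℝ) ≤ ((2 * p : ℕ) : ℝ) := by push_cast; linarith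
      exact_mod_cast this
    obtain ⟨⟨d1, d2⟩, d3, d4⟩ := hp₁ p (by omega)
    obtain ⟨h7, h8⟩ := s2 p h2 (by nlinarith)
    rw [win3 μ (hξ p) (hlaw p h3 hpF.2.2)]
    have hQ := QQ_pos (Z p)
    have hWp : (0 : ℝ) < W p := lt_of_lt_of_le (mul_pos (by linarith) hΔ0) h7
    -- the window is in the range of `p`
    have h9 : m + w ≤ p + W p := by
      have : ((m + w : ℕ) : ℝ) ≤ ((p + W p : ℕ) : ℝ) := by
        push_cast
        nlinarith
      exact_mod_cast this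
    have h10 : ((Ioc m (m + w)).filter (fun m' : ℕ => ∀ q : ℕ, q.Prime → q ∣ m' → Z p < q)) ⊆
        (Ph Z W p).filter (fun m' => m' ∈ Ioc m (m + w)) := by
      intro m' hm'
      simp only [mem_filter, mem_Ioc] at hm'
      simp only [mem_filter, mem_Ph, mem_Ioc]
      exact ⟨⟨⟨by omega, by omega⟩, hm'.2⟩, hm'.1⟩
    have hZK : (Z p) ^ K ≤ w := by
      have hp1 : (1 : ℝ) < p := by exact_mod_cast h3.one_lt
      have hlp : Real.log p ≤ 2 * l := by
        rw [← hlm]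
        apply Real.log_le_log (by linarith)
        exact_mod_cast h2
      have hllp : 0 < Real.log (Real.log p) := Real.log_pos (by linarith)
      have hZ0 : (0 : ℝ) < Z p := by exact_mod_cast (by omega : 0 < Z p)
      rw [div_le_iff₀ hllp] at d3
      have h11 : Real.log ((Z p : ℝ) ^ K) ≤ Real.log (Real.log p) := by
        rw [Real.log_pow]
        have h12 : K * (2 * β) ≤ 1 := by
          have : K * (2 * β) ≤ K * (2 * (1 / (2 * K))) := by gcongr
          refine this.trans (le_of_eq ?_)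
          field_simp
        calc (K : ℝ) * Real.log (Z p) ≤ K * (2 * β * Real.log (Real.log p)) := mul_le_mul_of_nonneg_left d3 hK0.le
          _ = K * (2 * β) * Real.log (Real.log p) := by ring
          _ ≤ 1 * Real.log (Real.log p) := mul_le_mul_of_nonneg_right h12 hllp.le
          _ = _ := one_mul _
      have h12 : (Z p : ℝ) ^ K ≤ Real.log p := (Real.log_le_log_iff (by positivity) (by linarith)).1 h11
      have h13 : (Z p : ℝ) ^ K ≤ w := by nlinarith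
      exact_mod_cast h13
    have h11 := (abs_le.1 (hR (Z p) (by omega) m w hZK)).1
    have h12 := (abs_le.1 d1).2
    have h13 : (1 - e) * (w * QQ (Z p)) ≤ (((Ph Z W p).filter (fun m' => m' ∈ Ioc m (m + w))).card : ℝ) := by
      have h14 := card_le_card h10
      have h15 : ((((Ioc m (m + w)).filter (fun m' : ℕ => ∀ q : ℕ, q.Prime → q ∣ m' → Z p < q)).card : ℕ) : ℝ) ≤
          (((Ph Z W p).filter (fun m' => m' ∈ Ioc m (m + w))).card : ℝ) := by exact_mod_cast h14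
      refine le_trans ?_ h15
      have h16 : -(e * (↑w * QQ (Z p))) ≤ ((((Ioc m (m + w)).filter (fun m' : ℕ => ∀ q : ℕ, q.Prime → q ∣ m' → Z p < q)).card : ℕ) : ℝ) - ↑w * QQ (Z p) := by
        convert h11
      linarith
    have h14 : ((Ph Z W p).card : ℝ) ≤ (1 + e) * (W p * QQ (Z p)) := by linarith
    have hPh : (0 : ℝ) < (Ph Z W p).card := by
      have := (abs_le.1 d1).1
      have : 0 < (W p : ℝ) * QQ (Z p) := by positivity
      nlinarith
    rw [le_div_iff₀ hPh]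
    calc (1 - e) / ((1 + e) * (1 + e)) * (w / Δ) * (Ph Z W p).card ≤
          (1 - e) / ((1 + e) * (1 + e)) * (w / Δ) * ((1 + e) * (((1 + e) * Δ) * QQ (Z p))) := by
          apply mul_le_mul_of_nonneg_left _ (mul_nonneg (div_nonneg (by linarith) (by positivity)) (by positivity))
          refine h14.trans ?_
          gcongr
      _ = (1 - e) * (w * QQ (Z p)) := by field_simp
      _ ≤ _ := h13
  have hsum : (1 - e) / ((1 + e) * (1 + e)) * (w / Δ) * ((1 - 4 * e) * (Δ / (2 * l))) ≤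
      ∑ p ∈ GF p₀ n, μ.real {ω | ξ p ω ∈ Ioc m (m + w)} := by
    calc _ ≤ (1 - e) / ((1 + e) * (1 + e)) * (w / Δ) * (R.card : ℝ) := by
          apply mul_le_mul_of_nonneg_left hpr2
          exact mul_nonneg (div_nonneg (by linarith) (by positivity)) (by positivity)
      _ = ∑ _p ∈ R, (1 - e) / ((1 + e) * (1 + e)) * (w / Δ) := by rw [sum_const, nsmul_eq_mul, mul_comm]
      _ ≤ ∑ p ∈ R, μ.real {ω | ξ p ω ∈ Ioc m (m + w)} := sum_le_sum hterm
      _ ≤ _ := sum_le_sum_of_subset_of_nonneg hRF fun p _ _ => measureReal_nonneg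
  have hfac : 1 - 8 * e ≤ (1 - e) / ((1 + e) * (1 + e)) * (1 - 4 * e) := by
    rw [div_mul_eq_mul_div, le_div_iff₀ (by positivity)]
    nlinarith [sq_nonneg e, mul_pos he0 (mul_pos he0 he0)]
  have hmain : (1 + (c - 2) / 4) * l - 1 ≤ ∑ p ∈ GF p₀ n, μ.real {ω | ξ p ω ∈ Ioc m (m + w)} := by
    refine le_trans ?_ hsum
    have h1 : (1 - e) / ((1 + e) * (1 + e)) * (w / Δ) * ((1 - 4 * e) * (Δ / (2 * l))) =
        (1 - e) / ((1 + e) * (1 + e)) * (1 - 4 * e) * (w / (2 * l)) := by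
      field_simp
    rw [h1]
    have h2 : (1 - 8 * e) * (w / (2 * l)) ≤ (1 - e) / ((1 + e) * (1 + e)) * (1 - 4 * e) * (w / (2 * l)) :=
      mul_le_mul_of_nonneg_right hfac (by positivity)
    refine le_trans ?_ h2
    have h3 : c / 2 * l - 1 ≤ w / (2 * l) := by
      rw [le_div_iff₀ (by linarith)]
      nlinarith
    have h4 : 0 ≤ 1 - 8 * e := by linarith
    have h5 : (1 - 8 * e) * (c / 2) = 1 + (c - 2) / 4 := by
      rw [he]
      field_simp
      ring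
    calc (1 + (c - 2) / 4) * l - 1 = (1 - 8 * e) * (c / 2) * l - 1 := by rw [h5]
      _ ≤ (1 - 8 * e) * (c / 2 * l - 1) := by nlinarith
      _ ≤ _ := mul_le_mul_of_nonneg_left h3 h4
  calc ∏ p ∈ GF p₀ n, (1 - μ.real {ω | ξ p ω ∈ Ioc m (m + w)}) ≤
        ∏ p ∈ GF p₀ n, Real.exp (-(μ.real {ω | ξ p ω ∈ Ioc m (m + w)})) := by
        apply Finset.prod_le_prod
        · intro p _
          have := measureReal_le_one (μ := μ) (s := {ω | ξ p ω ∈ Ioc m (m + w)})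
          linarith
        · intro p _
          have := Real.add_one_le_exp (-(μ.real {ω | ξ p ω ∈ Ioc m (m + w)}))
          linarith
    _ = Real.exp (-(∑ p ∈ GF p₀ n, μ.real {ω | ξ p ω ∈ Ioc m (m + w)})) := by
        rw [← Real.exp_sum, sum_neg_distrib]
    _ ≤ Real.exp (1 - (1 + (c - 2) / 4) * l) := Real.exp_le_exp.2 (by linarith)
    _ = Real.exp 1 * (1 / (n : ℝ) ^ (1 + (c - 2) / 4)) := by
        rw [Real.exp_sub, Real.rpow_def_of_pos hn0, ← hl, mul_comm (1 + (c - 2) / 4) l]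
        ring

theorem small (c : ℝ) (hc : 2 < c) : ∃ β₀ : ℝ, 0 < β₀ ∧
    ∀ (Ω : Type) [MeasurableSpace Ω] (μ : Measure Ω) [IsProbabilityMeasure μ] (ξ : ℕ → Ω → ℕ)
    (_ : ∀ p, Measurable (ξ p)) (_ : iIndepFun ξ μ)
    (A : ℕ) (_ : 1 ≤ A) (Z W : ℕ → ℕ) (_ : Tendsto (fun p : ℕ => (W p : ℝ) / Dl A p) atTop (𝓝 1)) (β : ℝ)
    (_ : 0 < β) (_ : β ≤ β₀)
    (_ : Tendsto (fun p : ℕ => Real.log (Z p) / Real.log (Real.log p)) atTop (𝓝 β)) (p₀ : ℕ)
    (_ : ∀ p, p.Prime → p₀ ≤ p → Law3 μ (ξ p) (Ph Z W p)),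
    ∀ᵐ ω ∂μ, ∀ᶠ n : ℕ in atTop, ∃ p : ℕ, p.Prime ∧ n ^ 2 < ξ p ω ∧ ξ p ω ≤ n ^ 2 + ⌊c * (Real.log n) ^ 2⌋₊ := by
  obtain ⟨β₀, hβ₀, h⟩ := up_prob c hc
  refine ⟨β₀, hβ₀, ?_⟩
  intro Ω _ μ _ ξ hξ hind A hA Z W hW β hβ hβ1 hZ p₀ hlaw
  have h1 := h Ω μ ξ hξ hind A hA Z W hW β hβ hβ1 hZ p₀ hlaw
  have h2 := bc_sum μ (fun n => Av ξ (GF p₀ n) (Ioc (n ^ 2) (n ^ 2 + ⌊c * (Real.log n) ^ 2⌋₊)))
    (fun n : ℕ => Real.exp 1 * (1 / (n : ℝ) ^ (1 + (c - 2) / 4))) (fun n => by positivity)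
    ((Real.summable_one_div_nat_rpow.2 (by linarith)).mul_left _) h1
  filter_upwards [h2] with ω hω
  filter_upwards [hω] with n hn
  rw [mem_Av] at hn
  push Not at hn
  obtain ⟨p, hp, hpi⟩ := hn
  unfold GF at hp
  rw [mem_filter] at hp
  rw [mem_Ioc] at hpi
  exact ⟨p, hp.2.1, hpi.1, hpi.2⟩

end Pool.Agent.R526.LS
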