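import Pool.Agent.R526.LS.Dest
import Pool.Agent.R526.RS.Low

set_option autoImplicit false

/-! # Windows without moved primes, for long sieve-preserving moves -/

namespace Pool.Agent.R526.LS

open MeasureTheory ProbabilityTheory Filter Finset Topology Pool.Agent.R526.RS
open Pool.Agent.R526.SP (Ph mem_Ph)

open scoped Classical

variable {Ω : Type} [MeasurableSpace Ω] (μ : Measure Ω) [IsProbabilityMeasure μ] {ξ : ℕ → Ω → ℕ}

/-- `X` is uniform on `Φ` -/
def Law3 (X : Ω → ℕ) (Φ : Finset ℕ) : Prop :=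
  (∀ᵐ ω ∂μ, X ω ∈ Φ) ∧ ∀ m ∈ Φ, μ.real {ω | X ω = m} = 1 / Φ.card

variable {X : Ω → ℕ} {Φ : Finset ℕ}

theorem win3 (hX : Measurable X) (h : Law3 μ X Φ) (I : Finset ℕ) :
    μ.real {ω | X ω ∈ I} = (Φ.filter (fun m => m ∈ I)).card / Φ.card := by
  have h1 : μ.real {ω | X ω ∈ I} = μ.real {ω | X ω ∈ Φ.filter (fun m => m ∈ I)} := by
    apply measureReal_congr
    filter_upwards [h.1] with ω hω
    change (X ω ∈ I) = (X ω ∈ Φ.filter (fun m => m ∈ I))
    rw [mem_filter]
    exact propext ⟨fun h => ⟨hω, h⟩, fun h => h.2⟩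
  rw [h1, real_union μ hX, sum_congr rfl (fun m hm => h.2 m (mem_filter.1 hm).1), sum_const, nsmul_eq_mul]
  ring

theorem ll_le {n p : ℕ} (hn : 2 ≤ Real.log n) (h : p ≤ 2 * n) (hp : 1 < p) :
    Real.log (Real.log p) ≤ 2 * Real.log (Real.log n) := by
  have hn0 : (0 : ℝ) < n := by
    rcases Nat.eq_zero_or_pos n with h0 | h0
    · rw [h0] at hn
      norm_num at hn
    · exact_mod_cast h0
  have hpr : (1 : ℝ) < p := by exact_mod_cast hp
  have h1 : Real.log p ≤ Real.log n + Real.log 2 := by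
    rw [← Real.log_mul hn0.ne' (by norm_num)]
    apply Real.log_le_log (by linarith)
    have : (p : ℝ) ≤ ((2 * n : ℕ) : ℝ) := by exact_mod_cast h
    push_cast at this
    linarith
  have h2 := Real.log_two_lt_d9
  have h3 : Real.log p ≤ (Real.log n) ^ 2 := by nlinarith
  calc Real.log (Real.log p) ≤ Real.log ((Real.log n) ^ 2) := Real.log_le_log (Real.log_pos hpr) h3
    _ = 2 * Real.log (Real.log n) := by rw [Real.log_pow]; norm_num

theorem one_low (hξ : ∀ p, Measurable (ξ p)) (hind : iIndepFun ξ μ) (A : ℕ) (hA : 1 ≤ A) (Z W : ℕ → ℕ)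
    (hW : Tendsto (fun p : ℕ => (W p : ℝ) / Dl A p) atTop (𝓝 1)) (β : ℝ) (hβ : 0 < β)
    (hZ : Tendsto (fun p : ℕ => Real.log (Z p) / Real.log (Real.log p)) atTop (𝓝 β)) (p₀ : ℕ)
    (hlaw : ∀ p, p.Prime → p₀ ≤ p → Law3 μ (ξ p) (Ph Z W p)) (C e : ℝ) (hC : 0 < C) (he : 0 < e) (he1 : e ≤ 1 / 10) :
    ∀ᶠ n : ℕ in atTop, ∀ w V : ℕ, (w : ℝ) ≤ C * (Real.log n) ^ 2 → (V : ℝ) ≤ C * (Real.log n) ^ 2 →
      (∀ p : ℕ, p ≤ n + w → n < p + W p → ((Ph Z W p).filter (fun m => m ∈ Ioc n (n + w))).card ≤ V) →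
      ∀ F : Finset ℕ, (∀ p ∈ F, p.Prime ∧ p₀ ≤ p) →
        Real.exp (-((1 + 30 * e) * (Real.exp Real.eulerMascheroniConstant * β *
          (V * Real.log (Real.log n) / Real.log n)) + 1)) ≤ μ.real (Av ξ F (Ioc n (n + w))) := by
  set E := Real.exp Real.eulerMascheroniConstant with hE
  have hE0 : 0 < E := Real.exp_pos _
  obtain ⟨p₁, hp₁⟩ := eventually_atTop.1 (dest_low A Z W hW β hβ hZ e he)
  set M : ℝ := 8 * C ^ 2 * (E * β) * 2 ^ (A + 1) + 4 * C * (E * β) * 2 ^ (A + 1) / e with hM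
  have hM0 : 0 < M := by positivity
  filter_upwards [shifts A hA W hW e he he1 (C + 1), primes_left A hA e he he1,
    basic A 4 1 one_pos, basic (A + 3) M 1 one_pos, eventually_ge_atTop (2 * p₁ + 100)]
    with n hsh hpr hba hbb hnp w V hw hV hnice F hF
  obtain ⟨s0, s1, s2, s3, s4⟩ := hsh
  have hpr1 := hpr.1
  obtain ⟨hL4, hΔL, -, hn4⟩ := hba
  obtain ⟨-, hbig, -, -⟩ := hbb
  set L := Real.log n with hL
  set Δ := Dl A n with hΔ
  set ℓ := Real.log L with hℓ
  have hL0 : 0 < L := by linarith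
  have hℓ0 : 0 < ℓ := Real.log_pos (by linarith)
  have hℓL : ℓ ≤ L := Real.log_le_self hL0.le
  have hn0 : (0 : ℝ) < n := by linarith
  have hΔ0 : 0 < Δ := by
    have : 0 < L ^ 2 := by positivity
    linarith
  have hbig' : M * L ^ 5 ≤ Δ := by
    have h1 : Dl (A + 3) n = Δ / L ^ 3 := by
      rw [hΔ]
      unfold Dl
      rw [pow_add, ← hL]
      field_simp
    rw [h1, le_div_iff₀ (by positivity)] at hbig
    calc M * L ^ 5 = M * L ^ 2 * L ^ 3 := by ring
      _ ≤ Δ := hbig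
  have hΔn : Δ ≤ n / 4 := by
    rw [hΔ]
    unfold Dl
    rw [← hL]
    apply div_le_div_of_nonneg_left hn0.le (by norm_num)
    calc (4 : ℝ) ≤ L := hL4
      _ = L ^ 1 := (pow_one L).symm
      _ ≤ L ^ A := pow_le_pow_right₀ (by linarith) hA
  have hwn : w ≤ n := by
    have h1 : (w : ℝ) ≤ n := by
      have h2 : (C + 1) * L ^ 2 ≤ e * Δ := s4
      have h3 : 0 ≤ L ^ 2 := by positivity
      nlinarith
    exact_mod_cast h1
  rw [Av_real μ hξ hind]
  set T := TP.TT n w with hT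
  set R := (Icc 1 n).filter (fun p : ℕ => p.Prime ∧ (n : ℝ) - (1 + 2 * e) * Δ < p) with hR
  have hV0 : (0 : ℝ) ≤ V := Nat.cast_nonneg V
  have hden : 0 < (1 - 2 * e) * Δ := mul_pos (by linarith) hΔ0
  set a₀ : ℝ := V * ((1 + e) * (E * β * ℓ)) / ((1 - 2 * e) * Δ) with ha₀
  set a₁ : ℝ := V * (2 * (E * β * (2 * ℓ))) * 2 ^ (A + 1) / Δ with ha₁
  have ha₀0 : 0 ≤ a₀ := by positivity
  have ha₁0 : 0 ≤ a₁ := by positivity
  have ha₁2 : a₁ ≤ e := by
    rw [ha₁, div_le_iff₀ hΔ0]
    calc V * (2 * (E * β * (2 * ℓ))) * 2 ^ (A + 1) ≤ C * L ^ 2 * (2 * (E * β * (2 * L))) * 2 ^ (A + 1) := by gcongr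
      _ = (4 * C * (E * β) * 2 ^ (A + 1)) * L ^ 3 := by ring
      _ ≤ (e * M) * L ^ 5 := by
          have h1 : 4 * C * (E * β) * 2 ^ (A + 1) ≤ e * M := by
            rw [hM, mul_add]
            have h2 : e * (4 * C * (E * β) * 2 ^ (A + 1) / e) = 4 * C * (E * β) * 2 ^ (A + 1) := by field_simp
            rw [h2]
            have : 0 ≤ e * (8 * C ^ 2 * (E * β) * 2 ^ (A + 1)) := by positivity
            linarith
          have h2 : L ^ 3 ≤ L ^ 5 := pow_le_pow_right₀ (by linarith) (by norm_num)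
          exact mul_le_mul h1 h2 (by positivity) (by positivity)
      _ = e * (M * L ^ 5) := by ring
      _ ≤ e * Δ := mul_le_mul_of_nonneg_left hbig' he.le
  have hwa : w * a₁ * 2 ≤ 1 := by
    have h1 : w * a₁ * 2 = w * (V * (2 * (E * β * (2 * ℓ))) * 2 ^ (A + 1)) * 2 / Δ := by
      rw [ha₁]
      ring
    rw [h1, div_le_iff₀ hΔ0, one_mul]
    calc w * (V * (2 * (E * β * (2 * ℓ))) * 2 ^ (A + 1)) * 2 ≤
          C * L ^ 2 * (C * L ^ 2 * (2 * (E * β * (2 * L))) * 2 ^ (A + 1)) * 2 := by gcongr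
      _ = 8 * C ^ 2 * (E * β) * 2 ^ (A + 1) * L ^ 5 := by ring
      _ ≤ M * L ^ 5 := by
          apply mul_le_mul_of_nonneg_right _ (by positivity)
          rw [hM]
          have : 0 ≤ 4 * C * (E * β) * 2 ^ (A + 1) / e := by positivity
          linarith
      _ ≤ Δ := hbig'
  have h01 : a₀ ≤ a₁ := by
    rw [ha₀, ha₁, div_le_div_iff₀ hden hΔ0]
    have h2 : (4 : ℝ) ≤ 2 ^ (A + 1) := by
      calc (4 : ℝ) = 2 ^ 2 := by norm_num
        _ ≤ 2 ^ (A + 1) := pow_le_pow_right₀ (by norm_num) (by omega)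
    have h3 : (1 + e) ≤ 4 * 2 ^ (A + 1) * (1 - 2 * e) := by nlinarith
    have h4 : 0 ≤ V * (E * β * ℓ) * Δ := by positivity
    calc V * ((1 + e) * (E * β * ℓ)) * Δ = (1 + e) * (V * (E * β * ℓ) * Δ) := by ring
      _ ≤ 4 * 2 ^ (A + 1) * (1 - 2 * e) * (V * (E * β * ℓ) * Δ) := mul_le_mul_of_nonneg_right h3 h4
      _ = _ := by ring
  set r : ℝ := a₀ / (1 - e) with hr
  set r₁ : ℝ := a₁ / (1 - e) with hr₁
  have hr0 : 0 ≤ r := div_nonneg ha₀0 (by linarith)
  have hr10 : 0 ≤ r₁ := div_nonneg ha₁0 (by linarith)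
  have hzero : ∀ p ∈ F, (∀ m ∈ Ph Z W p, m ∉ Ioc n (n + w)) →
      Real.exp (-((if p ∈ T then r₁ else 0) + (if p ∈ R then r else 0))) ≤
        1 - μ.real {ω | ξ p ω ∈ Ioc n (n + w)} := by
    intro p hp h2
    obtain ⟨hpp, hp0⟩ := hF p hp
    rw [win3 μ (hξ p) (hlaw p hpp hp0), filter_false_of_mem h2]
    simp only [card_empty, Nat.cast_zero, zero_div, sub_zero]
    have h4 : (0 : ℝ) ≤ if p ∈ T then r₁ else 0 := by split_ifs <;> [exact hr10; exact le_rfl]
    have h5 : (0 : ℝ) ≤ if p ∈ R then r else 0 := by split_ifs <;> [exact hr0; exact le_rfl]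
    exact Real.exp_le_one_iff.2 (by linarith)
  have hterm : ∀ p ∈ F, Real.exp (-((if p ∈ T then r₁ else 0) + (if p ∈ R then r else 0))) ≤
      1 - μ.real {ω | ξ p ω ∈ Ioc n (n + w)} := by
    intro p hp
    obtain ⟨hpp, hp0⟩ := hF p hp
    have hl := hlaw p hpp hp0
    rcases lt_or_ge (n + w) p with h' | h'
    · apply hzero p hp
      intro m hm
      rw [mem_Ph] at hm
      rw [mem_Ioc]
      omega
    rcases le_or_gt (p + W p) n with h'' | h''
    · apply hzero p hp
      intro m hm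
      rw [mem_Ph] at hm
      rw [mem_Ioc]
      omega
    have hcard : (((Ph Z W p).filter (fun m => m ∈ Ioc n (n + w))).card : ℝ) ≤ V := by
      exact_mod_cast hnice p h' h''
    rw [win3 μ (hξ p) hl]
    set q₀ : ℝ := (((Ph Z W p).filter (fun m => m ∈ Ioc n (n + w))).card : ℝ) / (Ph Z W p).card with hq₀
    rcases lt_or_ge n p with h | h
    · have hpT : p ∈ T := by
        rw [hT]
        unfold TP.TT
        rw [mem_filter, mem_Ioc]
        exact ⟨⟨h, h'⟩, hpp⟩
      rw [if_pos hpT]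
      have h2 := s3 p h (by omega)
      have h3 := hp₁ p (by omega)
      have h4 := ll_le (n := n) (p := p) (by linarith) (by omega) hpp.one_lt
      have hWp : 0 < (W p : ℝ) := lt_of_lt_of_le (by positivity) h2
      have hN : (0 : ℝ) < (Ph Z W p).card := by
        rcases Nat.eq_zero_or_pos (Ph Z W p).card with h0 | h0
        · rw [h0] at h3
          simp only [Nat.cast_zero, mul_zero] at h3
          linarith
        · exact_mod_cast h0
      have h5 : q₀ ≤ a₁ := by
        rw [hq₀, ha₁, div_le_div_iff₀ hN hΔ0]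
        have h6 : Δ ≤ (2 * (E * β * (2 * ℓ))) * 2 ^ (A + 1) * (Ph Z W p).card := by
          have h7 : Δ = ((1 / 2 : ℝ) ^ (A + 1) * Δ) * 2 ^ (A + 1) := by
            rw [mul_comm ((1 / 2 : ℝ) ^ (A + 1)) Δ, mul_assoc, ← mul_pow]
            norm_num
          have h8 : (W p : ℝ) ≤ (2 * (E * β * (2 * ℓ))) * (Ph Z W p).card := by
            refine h3.trans ?_
            apply mul_le_mul_of_nonneg_right _ hN.le
            have h9 : E * β * Real.log (Real.log p) ≤ E * β * (2 * ℓ) :=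
              mul_le_mul_of_nonneg_left h4 (by positivity)
            have h10 : 0 ≤ E * β * (2 * ℓ) := by positivity
            nlinarith
          calc Δ = ((1 / 2 : ℝ) ^ (A + 1) * Δ) * 2 ^ (A + 1) := h7
            _ ≤ (W p : ℝ) * 2 ^ (A + 1) := mul_le_mul_of_nonneg_right h2 (by positivity)
            _ ≤ (2 * (E * β * (2 * ℓ))) * (Ph Z W p).card * 2 ^ (A + 1) :=
              mul_le_mul_of_nonneg_right h8 (by positivity)
            _ = _ := by ring
        calc _ ≤ (V : ℝ) * Δ := mul_le_mul_of_nonneg_right hcard hΔ0.le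
          _ ≤ V * ((2 * (E * β * (2 * ℓ))) * 2 ^ (A + 1) * (Ph Z W p).card) := mul_le_mul_of_nonneg_left h6 hV0
          _ = _ := by ring
      have h6 : Real.exp (-r₁) ≤ 1 - a₁ := by
        apply exp_le_one_sub _ _ ha₁0 (by linarith)
        rw [hr₁]
        exact div_le_div_of_nonneg_left ha₁0 (by linarith) (by linarith)
      have h7 : Real.exp (-(r₁ + if p ∈ R then r else 0)) ≤ Real.exp (-r₁) := by
        apply Real.exp_le_exp.2
        have h2 : (0 : ℝ) ≤ if p ∈ R then r else 0 := by split_ifs <;> [exact hr0; exact le_rfl]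
        linarith
      linarith
    · have h6 := s1 p h h''
      have hpR : p ∈ R := by
        rw [hR, mem_filter, mem_Icc]
        exact ⟨⟨hpp.one_lt.le, h⟩, hpp, h6⟩
      rw [if_pos hpR]
      obtain ⟨h2, -⟩ := s2 p h h6
      have hpn : (n : ℝ) / 2 ≤ p := by nlinarith
      have hpn' : n ≤ 2 * p := by
        have : (n : ℝ) ≤ ((2 * p : ℕ) : ℝ) := by push_cast; linarith
        exact_mod_cast this
      have h3 := hp₁ p (by omega)
      have hWp : 0 < (W p : ℝ) := lt_of_lt_of_le hden h2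
      have hN : (0 : ℝ) < (Ph Z W p).card := by
        rcases Nat.eq_zero_or_pos (Ph Z W p).card with h0 | h0
        · rw [h0] at h3
          simp only [Nat.cast_zero, mul_zero] at h3
          linarith
        · exact_mod_cast h0
      have h4 : Real.log (Real.log p) ≤ ℓ := by
        have hp1 : (1 : ℝ) < p := by exact_mod_cast hpp.one_lt
        apply Real.log_le_log (Real.log_pos hp1)
        apply Real.log_le_log (by linarith)
        exact_mod_cast h
      have h5 : q₀ ≤ a₀ := by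
        rw [hq₀, ha₀, div_le_div_iff₀ hN hden]
        have h8 : (1 - 2 * e) * Δ ≤ ((1 + e) * (E * β * ℓ)) * (Ph Z W p).card := by
          refine h2.trans (h3.trans ?_)
          apply mul_le_mul_of_nonneg_right _ hN.le
          apply mul_le_mul_of_nonneg_left _ (by linarith)
          exact mul_le_mul_of_nonneg_left h4 (by positivity)
        calc _ ≤ (V : ℝ) * ((1 - 2 * e) * Δ) := mul_le_mul_of_nonneg_right hcard hden.le
          _ ≤ V * (((1 + e) * (E * β * ℓ)) * (Ph Z W p).card) := mul_le_mul_of_nonneg_left h8 hV0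
          _ = _ := by ring
      have h6 : Real.exp (-r) ≤ 1 - a₀ := by
        apply exp_le_one_sub _ _ ha₀0 (by linarith)
        rw [hr]
        exact div_le_div_of_nonneg_left ha₀0 (by linarith) (by linarith)
      have h7 : Real.exp (-((if p ∈ T then r₁ else 0) + r)) ≤ Real.exp (-r) := by
        apply Real.exp_le_exp.2
        have h2 : (0 : ℝ) ≤ if p ∈ T then r₁ else 0 := by split_ifs <;> [exact hr10; exact le_rfl]
        linarith
      linarith
  refine le_trans ?_ (Finset.prod_le_prod (fun p _ => (Real.exp_pos _).le) hterm)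
  rw [← Real.exp_sum]
  apply Real.exp_le_exp.2
  rw [sum_neg_distrib, neg_le_neg_iff, sum_add_distrib, ← sum_filter, ← sum_filter, sum_const, sum_const,
    nsmul_eq_mul, nsmul_eq_mul]
  have c1 : (((F.filter (fun p => p ∈ T)).card : ℕ) : ℝ) ≤ w := by
    have h1 : (F.filter (fun p => p ∈ T)).card ≤ (Ioc n (n + w)).card := by
      apply card_le_card
      intro p hp
      have := (mem_filter.1 hp).2
      rw [hT] at this
      unfold TP.TT at this
      exact (mem_filter.1 this).1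
    rw [Nat.card_Ioc] at h1
    exact_mod_cast (by omega : (F.filter (fun p => p ∈ T)).card ≤ w)
  have c2 : (((F.filter (fun p => p ∈ R)).card : ℕ) : ℝ) ≤ (1 + 4 * e) * (Δ / L) := by
    refine le_trans ?_ hpr1
    exact_mod_cast card_le_card (fun p hp => (mem_filter.1 hp).2)
  have c3 : (((F.filter (fun p => p ∈ T)).card : ℕ) : ℝ) * r₁ ≤ 1 := by
    have h1 : (((F.filter (fun p => p ∈ T)).card : ℕ) : ℝ) * r₁ ≤ w * r₁ := mul_le_mul_of_nonneg_right c1 hr10
    have h2 : r₁ ≤ a₁ * 2 := by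
      rw [hr₁, div_le_iff₀ (by linarith)]
      nlinarith
    have h3 : (w : ℝ) * r₁ ≤ w * (a₁ * 2) := mul_le_mul_of_nonneg_left h2 (Nat.cast_nonneg w)
    linarith
  have c4 : (((F.filter (fun p => p ∈ R)).card : ℕ) : ℝ) * r ≤ (1 + 4 * e) * (Δ / L) * r :=
    mul_le_mul_of_nonneg_right c2 hr0
  have c5 : (1 + 4 * e) * (Δ / L) * r ≤ (1 + 30 * e) * (E * β * (V * ℓ / L)) := by
    rw [hr, ha₀]
    have h1 : (1 + 4 * e) * (Δ / L) * (V * ((1 + e) * (E * β * ℓ)) / ((1 - 2 * e) * Δ) / (1 - e)) =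
        (1 + 4 * e) * (1 + e) / ((1 - 2 * e) * (1 - e)) * (E * β * (V * ℓ / L)) := by
      have : (1 - 2 * e) ≠ 0 := by linarith
      have : (1 - e) ≠ 0 := by linarith
      field_simp
    rw [h1]
    apply mul_le_mul_of_nonneg_right _ (by positivity)
    rw [div_le_iff₀ (mul_pos (by linarith) (by linarith))]
    have h3 : 0 ≤ e * (1 / 10 - e) := mul_nonneg he.le (by linarith)
    have h4 : 0 ≤ e ^ 3 := by positivity
    nlinarith
  linarith

end Pool.Agent.R526.LS
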